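import Mathlib
import Pool.Agent.R29.Tutte

set_option autoImplicit false

/-!
# Outerplanarity is not determined by the Tutte polynomial (MP_f03b0a_co, Q1)

Two connected graphs with six vertices and ten edges (with some parallel edges) which have the
same Tutte polynomial; the first is outerplanar, the second is not (it contains a subdivision of
`K_{2,3}`).
-/

namespace Pool.Agent.Results.MP_f03b0a_co.Outerplanarity

open Finset

variable {V E : Type}

/-- The simple graph on `V` in which two different vertices are adjacent if some edge in `A` of the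
multigraph (given by the ends `ends e = (u, v)` of its edges `e`) joins them. -/
def under (ends : E → V × V) (A : Finset E) : SimpleGraph V :=
  SimpleGraph.fromRel fun u v => ∃ e ∈ A, ends e = (u, v)

/-- `k(A)`: the number of the connected components of the spanning subgraph `(V, A)`. -/
noncomputable def comps (ends : E → V × V) (A : Finset E) : ℕ :=
  Nat.card (under ends A).ConnectedComponent

/-- The rank `r(A) = |V| - k(A)`. -/
noncomputable def rank [Fintype V] (ends : E → V × V) (A : Finset E) : ℕ :=
  Fintype.card V - comps ends A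

/-- The Tutte polynomial `∑_A (x-1)^(r(E)-r(A)) (y-1)^(|A|-r(A))` with `x = X 0` and `y = X 1`. -/
noncomputable def tutte [Fintype V] [Fintype E] (ends : E → V × V) : MvPolynomial (Fin 2) ℤ :=
  ∑ A : Finset E, (MvPolynomial.X 0 - 1) ^ (rank ends univ - rank ends A) *
    (MvPolynomial.X 1 - 1) ^ (A.card - rank ends A)

/-- The multigraph is connected. -/
def IsConnected [Fintype E] (ends : E → V × V) : Prop := (under ends univ).Connected

/-- The multigraph is outerplanar, in the usual circular form: its vertices can be placed at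
different points of a circle (cut open, so that the places are real numbers) such that no two
edges, drawn as chords, cross.  Loops and further parallel edges play no role for this. -/
def IsOuterplanar [Fintype E] (ends : E → V × V) : Prop :=
  ∃ f : V → ℝ, Function.Injective f ∧
    ∀ a b c d : V, (under ends univ).Adj a b → (under ends univ).Adj c d →
      ¬ (f a < f c ∧ f c < f b ∧ f b < f d)

/-- The multigraph contains a subdivision of `K_{2,3}`: three paths of length at least two between
two vertices `u ≠ v`, any two of which meet in `u` and `v` only. -/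
def HasTheta [Fintype E] (ends : E → V × V) : Prop :=
  ∃ (u v : V) (p : Fin 3 → (under ends univ).Walk u v), u ≠ v ∧
    (∀ i, (p i).IsPath ∧ 2 ≤ (p i).length) ∧
    ∀ i j, i ≠ j → ∀ w, w ∈ (p i).support → w ∈ (p j).support → w = u ∨ w = v

/-- the outerplanar graph: it is drawn without crossings inside the cycle `0 5 3 4 1 2` -/
def G : Fin 10 → Fin 6 × Fin 6 :=
  ![(0,1),(0,2),(1,2),(0,3),(0,3),(0,5),(3,5),(3,4),(3,4),(1,4)]

/-- the graph with the three paths `0 2 3 1`, `0 4 1`, `0 5 1` -/
def H : Fin 10 → Fin 6 × Fin 6 :=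
  ![(0,1),(0,2),(0,2),(2,3),(1,3),(0,4),(0,4),(1,4),(0,5),(1,5)]

theorem tutte_G_H : tutte G = tutte H := by
  have h : Pool.Agent.R29.tutte G = Pool.Agent.R29.tutte H := by
    apply Pool.Agent.R29.tutte_eq_of_poly (by norm_num) (by norm_num)
    decide +kernel
  exact h

theorem adj_iff (ends : E → V × V) (A : Finset E) (u v : V) :
    (under ends A).Adj u v ↔ u ≠ v ∧ ∃ e ∈ A, ends e = (u, v) ∨ ends e = (v, u) :=
  Pool.Agent.R29.under_adj ends A u v

instance (ends : Fin 10 → Fin 6 × Fin 6) (A : Finset (Fin 10)) :
    DecidableRel (under ends A).Adj := fun u v => decidable_of_iff _ (adj_iff ends A u v).symm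

/-- the order of the vertices of `G` on the circle -/
def ordG : Fin 6 → ℕ := ![0, 4, 5, 2, 3, 1]

theorem cross_G : ∀ a b c d : Fin 6, (under G univ).Adj a b → (under G univ).Adj c d →
    ¬ (ordG a < ordG c ∧ ordG c < ordG b ∧ ordG b < ordG d) := by
  decide +kernel

theorem ordG_injective : ∀ a b : Fin 6, ordG a = ordG b → a = b := by
  decide +kernel

theorem outer_G : IsOuterplanar G := by
  refine ⟨fun v => (ordG v : ℝ), ?_, ?_⟩
  · intro a b h
    refine ordG_injective a b ?_
    simpa using h
  · intro a b c d h1 h2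
    have := cross_G a b c d h1 h2
    simpa only [Nat.cast_lt] using this

/-- an edge with the direction given by `s` -/
def dir (s : Bool) (p : Fin 6 × Fin 6) : Fin 6 × Fin 6 := if s then p else (p.2, p.1)

theorem adj_dir (i : Fin 10) (s : Bool) (h : (H i).1 ≠ (H i).2) :
    (under H univ).Adj (dir s (H i)).1 (dir s (H i)).2 := by
  rw [adj_iff]
  cases s with
  | true => exact ⟨h, i, mem_univ _, Or.inl rfl⟩
  | false => exact ⟨h.symm, i, mem_univ _, Or.inr rfl⟩

theorem no_loops : ∀ i, (H i).1 ≠ (H i).2 := by decide +kernel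

theorem cross_H : ∀ σ : Equiv.Perm (Fin 6), ∃ i j : Fin 10, ∃ s t : Bool,
    σ (dir s (H i)).1 < σ (dir t (H j)).1 ∧ σ (dir t (H j)).1 < σ (dir s (H i)).2 ∧
      σ (dir s (H i)).2 < σ (dir t (H j)).2 := by
  decide +kernel

theorem not_outer_H : ¬ IsOuterplanar H := by
  rintro ⟨f, hf, h⟩
  have hs : StrictMono (f ∘ Tuple.sort f) :=
    (Tuple.monotone_sort f).strictMono_of_injective (hf.comp (Tuple.sort f).injective)
  have key : ∀ a b : Fin 6, (Tuple.sort f).symm a < (Tuple.sort f).symm b → f a < f b := by
    intro a b hab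
    have := hs hab
    simpa using this
  obtain ⟨i, j, s, t, h3, h4, h5⟩ := cross_H (Tuple.sort f).symm
  exact h _ _ _ _ (adj_dir i s (no_loops i)) (adj_dir j t (no_loops j))
    ⟨key _ _ h3, key _ _ h4, key _ _ h5⟩

/-- connectivity from edges leaving all sets of vertices -/
theorem connected_of_cuts (K : SimpleGraph (Fin 6))
    (h : ∀ T : Finset (Fin 6), 0 ∈ T → T ≠ univ → ∃ a ∈ T, ∃ b ∉ T, K.Adj a b) : K.Connected := by
  classical
  rw [SimpleGraph.connected_iff_exists_forall_reachable]
  refine ⟨0, ?_⟩
  by_contra hcon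
  push Not at hcon
  obtain ⟨x, hx⟩ := hcon
  obtain ⟨a, ha, b, hb, hab⟩ := h (univ.filter fun x => K.Reachable 0 x) (by simp)
    (fun hT => hx (by
      have : x ∈ (univ.filter fun x => K.Reachable 0 x) := by rw [hT]; exact mem_univ _
      simpa using this))
  rw [mem_filter] at ha hb
  exact hb ⟨mem_univ _, ha.2.trans hab.reachable⟩

theorem connected_of {K : Fin 10 → Fin 6 × Fin 6}
    (h : ∀ T : Finset (Fin 6), 0 ∈ T → T ≠ univ → ∃ e, ((K e).1 ∈ T ∧ (K e).2 ∉ T) ∨
      ((K e).2 ∈ T ∧ (K e).1 ∉ T)) : IsConnected K := by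
  refine connected_of_cuts _ ?_
  intro T hT hT'
  obtain ⟨e, ⟨h1, h2⟩ | ⟨h1, h2⟩⟩ := h T hT hT'
  · exact ⟨_, h1, _, h2, (adj_iff K univ _ _).mpr
      ⟨fun hc => h2 (hc ▸ h1), e, mem_univ _, Or.inl rfl⟩⟩
  · exact ⟨_, h1, _, h2, (adj_iff K univ _ _).mpr
      ⟨fun hc => h2 (hc ▸ h1), e, mem_univ _, Or.inr rfl⟩⟩

theorem connected_G : IsConnected G := by
  refine connected_of ?_
  decide +kernel

theorem connected_H : IsConnected H := by
  refine connected_of ?_
  decide +kernel

theorem walk_H (a b c : Fin 6) (i j : Fin 10) (s t : Bool) (hi : dir s (H i) = (a, b))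
    (hj : dir t (H j) = (b, c)) : (under H univ).Adj a b ∧ (under H univ).Adj b c := by
  have h1 := adj_dir i s (no_loops i)
  have h2 := adj_dir j t (no_loops j)
  rw [hi] at h1
  rw [hj] at h2
  exact ⟨h1, h2⟩

theorem theta_H : HasTheta H := by
  have a02 : (under H univ).Adj 0 2 := (walk_H 0 2 3 1 3 true true rfl rfl).1
  have a23 : (under H univ).Adj 2 3 := (walk_H 0 2 3 1 3 true true rfl rfl).2
  have a31 : (under H univ).Adj 3 1 := (walk_H 3 1 4 4 7 false true rfl rfl).1
  have a04 : (under H univ).Adj 0 4 := (walk_H 0 4 1 5 7 true false rfl rfl).1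
  have a41 : (under H univ).Adj 4 1 := (walk_H 0 4 1 5 7 true false rfl rfl).2
  have a05 : (under H univ).Adj 0 5 := (walk_H 0 5 1 8 9 true false rfl rfl).1
  have a51 : (under H univ).Adj 5 1 := (walk_H 0 5 1 8 9 true false rfl rfl).2
  refine ⟨0, 1, ![.cons a02 (.cons a23 (.cons a31 .nil)), .cons a04 (.cons a41 .nil),
    .cons a05 (.cons a51 .nil)], by decide, ?_, ?_⟩
  · intro i
    fin_cases i <;> simp [SimpleGraph.Walk.isPath_def]
  · intro i j hij w
    fin_cases i <;> fin_cases j <;> first | exact absurd rfl hij | skip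
    all_goals
      simp only [Fin.zero_eta, Fin.mk_one, Fin.reduceFinMk, Matrix.cons_val_zero,
        Matrix.cons_val_one, Matrix.cons_val, SimpleGraph.Walk.support_cons,
        SimpleGraph.Walk.support_nil, List.mem_cons, List.not_mem_nil, or_false]
      revert w
      decide

/-- There are two connected multigraphs with six vertices and ten edges which have the same Tutte
polynomial, and the first is outerplanar while the second is not: it even contains a subdivision of
`K_{2,3}`. -/
theorem result : ∃ G H : Fin 10 → Fin 6 × Fin 6, tutte G = tutte H ∧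
    IsConnected G ∧ IsConnected H ∧ IsOuterplanar G ∧ ¬ IsOuterplanar H ∧ HasTheta H :=
  ⟨G, H, tutte_G_H, connected_G, connected_H, outer_G, not_outer_H, theta_H⟩

end Pool.Agent.Results.MP_f03b0a_co.Outerplanarity
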